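import Pool.Agent.helper20.HasseDim.Proof

set_option autoImplicit false

namespace Pool.Agent.Results.MP_512408_co.HasseRegularDim

open Pool.Agent.helper20.HasseDim

/-- For every `r ≥ 4` there is a finite semidistributive and congruence uniform `r`-Hasse-regular
lattice whose order dimension is larger than `r`. -/
theorem result : ∀ r : ℕ, 4 ≤ r → ∃ (L : Type) (_ : Lattice L) (_ : Finite L),
    Semidistributive L ∧ CongruenceUniform L ∧ HasseRegular r L ∧ r < orderDim L := by
  intro r hr
  obtain ⟨n, rfl⟩ := Nat.exists_eq_add_of_le hr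
  obtain ⟨L, hL, hfin, hCU, hreg, hcrit, -⟩ := main n
  exact ⟨L, hL, hfin, hCU.semidistributive, hCU, hreg, hcrit.lt_orderDim⟩

end Pool.Agent.Results.MP_512408_co.HasseRegularDim
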